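import Pool.Agent.W868.FI.Stms3

/-! Subtask FI-GOOD: most cells are good. -/

set_option autoImplicit false

open MeasureTheory Set Filter Topology

namespace Pool.Agent.W883.FI

open Pool.Agent.W868.FI

variable {Γ Sg : Type} [Group Γ]

theorem kap_shift (h₂ : S_DEC) [Fintype Sg] [Nonempty Sg] (α : ℝ) (F : Finset Γ)
    (t : (Γ → Bool) → Γ) (a : (Γ → Bool) → Bool) (c : (Γ → Bool) → Γ) (e : Γ → Bool) (k : Γ) :
    kap Sg α F t a (sh k e) (cell c (sh k e) 1) = kap Sg α F t a e (cell c e k) := by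
  obtain ⟨-, -, -, -, h5, -, -⟩ := h₂ Γ Sg F univ c e
  obtain ⟨-, -, -, -, -, h6, -⟩ := h₂ Γ Sg F univ t e
  have hcell : cell c (sh k e) 1 = {x | x * k ∈ cell c e k} := by
    ext g
    have h := h5 k k g
    rw [mul_inv_cancel] at h
    exact h
  rw [hcell]
  set C := cell c e k
  have hU : Unk F t e C = (fun x => x * k) '' (Unk F t (sh k e) {x | x * k ∈ C}) := by
    ext g
    constructor
    · intro hg
      refine ⟨g * k⁻¹, (h6 C k (g * k⁻¹)).2 ?_, ?_⟩
      · rwa [inv_mul_cancel_right]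
      · simp
    · rintro ⟨x, hx, rfl⟩
      exact (h6 C k x).1 hx
  have hV : avl a e C = (fun x => x * k) '' (avl a (sh k e) {x | x * k ∈ C}) := by
    ext g
    constructor
    · rintro ⟨hg1, hg2⟩
      refine ⟨g * k⁻¹, ⟨?_, ?_⟩, ?_⟩
      · change g * k⁻¹ * k ∈ C
        rwa [inv_mul_cancel_right]
      · rw [sh_sh, inv_mul_cancel_right]
        exact hg2
      · simp
    · rintro ⟨x, ⟨hx1, hx2⟩, rfl⟩
      refine ⟨hx1, ?_⟩
      rw [sh_sh] at hx2
      exact hx2
  unfold kap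
  rw [hU, hV, ncard_image_of_injective _ (mul_left_injective k),
    ncard_image_of_injective _ (mul_left_injective k)]

/-- bad position for the cells of `t` -/
def bT (a : (Γ → Bool) → Bool) (t : (Γ → Bool) → Γ) (S₀ : Finset Γ) (y : Γ → Bool) : Prop :=
  ∃ s ∈ S₀, t (sh s (er a y)) * s ≠ t (er a y)

theorem loc_bT {a : (Γ → Bool) → Bool} (ha : Loc a) {t : (Γ → Bool) → Γ} (ht : Loc t)
    (S₀ : Finset Γ) : Loc (bT a t S₀) := by
  rw [loc_iff, lat_iff]
  intro y
  have h1 : ∀ᶠ y' in 𝓝 y, t (er a y') = t (er a y) :=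
    ((continuous_er ha).tendsto y).eventually (lat_iff.1 ht.lc (er a y))
  have h2 : ∀ᶠ y' in 𝓝 y, ∀ s ∈ S₀, t (sh s (er a y')) = t (sh s (er a y)) := by
    rw [Filter.eventually_all_finset]
    intro s _
    exact ((continuous_er ha).tendsto y).eventually
      ((lat_iff.1 ht.lc (sh s (er a y))).comp_sh s)
  filter_upwards [h1, h2] with y' h1 h2
  unfold bT
  rw [h1]
  refine propext (exists_congr fun s => and_congr_right fun hs => ?_)
  rw [h2 s hs]

theorem int_ind [Countable Γ] (ν : Measure Bool) [IsProbabilityMeasure ν]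
    {P : (Γ → Bool) → Prop} (hP : Loc P) :
    Integrable (Set.indicator {y | P y} (1 : (Γ → Bool) → ℝ)) (iid Γ ν) ∧
      ∫ y, Set.indicator {y | P y} (1 : (Γ → Bool) → ℝ) y ∂(iid Γ ν) =
        (iid Γ ν {y | P y}).toReal := by
  have hm : MeasurableSet {y | P y} := by
    have h := hP.measurable_preimage {True}
    have e : P ⁻¹' {True} = {y | P y} := by
      ext y
      simp
    rwa [e] at h
  refine ⟨(integrable_const (1 : ℝ)).indicator hm, ?_⟩
  rw [integral_indicator_one hm]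
  rfl

theorem known_of {a : (Γ → Bool) → Bool} {t : (Γ → Bool) → Γ} {S₀ F L : Finset Γ}
    (hF : ∀ δ ∈ F, ∀ δ' ∈ F, δ * δ'⁻¹ ∈ S₀)
    (hL : ∀ r ∈ range t, ∀ r' ∈ range t, r'⁻¹ * r ∈ L) (y : Γ → Bool) (C : Set Γ) (g : Γ)
    (h1 : ¬ bT a t S₀ (sh g y)) (h2 : ∀ l ∈ L, l * g ∈ C) : Known F t (er a y) C g := by
  set e := er a y with he
  have h3 : ∀ s ∈ S₀, ctr t e (s * g) = ctr t e g := by
    intro s hs
    unfold bT at h1
    push Not at h1
    have h4 := h1 s hs
    rw [er_sh, ← he, sh_sh] at h4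
    unfold ctr
    rw [← mul_assoc, h4]
  refine ⟨?_, ?_, ?_⟩
  · intro x hx
    have h4 : t (sh x e) * x = t (sh g e) * g := hx
    have h5 : x = ((t (sh x e))⁻¹ * t (sh g e)) * g := by
      rw [mul_assoc, ← h4, inv_mul_cancel_left]
    rw [h5]
    exact h2 _ (hL _ ⟨_, rfl⟩ _ ⟨_, rfl⟩)
  · exact rfl
  · rintro γ ⟨δ, hδ, hg⟩ δ' hδ'
    have h4 : δ' * γ = (δ' * δ⁻¹) * g := by
      rw [← hg]; group
    rw [h4]
    exact h3 _ (hF δ' hδ' δ hδ)

theorem good (h₁ : S_AVG) (h₂ : S_DEC) : S_GOOD := by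
  classical
  intro Γ Sg _ _ _ _ _ ν _ a b hst α hα0 hα1 F t ht S₀ hF hlt η ε hη hε
  have hrt := range_finite ht
  let L : Finset Γ := (hrt.toFinset ×ˢ hrt.toFinset).image (fun p => p.2⁻¹ * p.1)
  have hL : ∀ r ∈ range t, ∀ r' ∈ range t, r'⁻¹ * r ∈ L := by
    intro r hr r' hr'
    exact Finset.mem_image.2 ⟨(r, r'), Finset.mem_product.2
      ⟨hrt.mem_toFinset.2 hr, hrt.mem_toFinset.2 hr'⟩, rfl⟩
  set K : ℝ := 2 * Real.log (Fintype.card Sg) with hK
  have hcard : (1 : ℝ) ≤ Fintype.card Sg := by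
    exact_mod_cast Fintype.card_pos (α := Sg)
  have hK0 : 0 ≤ K := mul_nonneg zero_le_two (Real.log_nonneg hcard)
  let φ : (Γ → Bool) → ℝ := fun y =>
    Real.log (1 / α) * Set.indicator {y | a y = true} (1 : (Γ → Bool) → ℝ) y -
      K * Set.indicator {y | bT a t S₀ y} (1 : (Γ → Bool) → ℝ) y
  have hPa : Loc (fun y => a y = true) := by
    obtain ⟨J, hJ⟩ := hst.loc_a
    exact ⟨J, fun x y hxy => by
      change (a x = true) = (a y = true)
      rw [hJ x y hxy]⟩
  have hPb := loc_bT hst.loc_a ht S₀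
  have hφ : Loc φ := by
    rw [loc_iff, lat_iff]
    intro y
    filter_upwards [lat_iff.1 hPa.lc y, lat_iff.1 hPb.lc y] with y' h3 h4
    simp only [φ, Set.indicator_apply, Set.mem_ofPred_eq]
    simp only [h3, h4, Pi.one_apply]
  have hint : 0 < ∫ y, φ y ∂(iid Γ ν) := by
    obtain ⟨i1, e1⟩ := int_ind ν hPa
    obtain ⟨i2, e2⟩ := int_ind ν hPb
    have h3 : ∫ y, φ y ∂(iid Γ ν) = Real.log (1 / α) * (iid Γ ν {y | a y = true}).toReal -
        K * (iid Γ ν {y | bT a t S₀ y}).toReal := by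
      rw [← e1, ← e2, ← integral_const_mul, ← integral_const_mul,
        ← integral_sub (i1.const_mul _) (i2.const_mul _)]
    rw [h3, sub_pos]
    exact hlt
  obtain ⟨S, δ, hδ, hS⟩ := h₁ Γ ν φ hφ hint K (Real.log (2 / η)) hK0 L ε hε
  refine ⟨S, δ, hδ, fun c hc hcS => ?_⟩
  have hc' : Loc (fun y => c (er a y)) := by
    rw [loc_iff, lat_iff]
    intro y
    exact ((continuous_er hst.loc_a).tendsto y).eventually (lat_iff.1 hc.lc (er a y))
  have hev := hS (fun y => c (er a y)) hc' (by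
    refine le_trans (le_of_eq ?_) hcS
    congr 1
    ext y
    simp only [Set.mem_ofPred_eq, er_sh])
  refine le_trans (measure_mono ?_) hev
  intro y hy
  rw [Set.mem_ofPred_eq] at hy ⊢
  by_contra hcon
  apply hy
  rw [not_lt] at hcon
  rw [kap_shift h₂]
  set e := er a y with he
  have hmem : ∀ g : Γ, c (er a (sh g y)) * g = c e ↔ g ∈ cell c e (c e) := by
    intro g
    rw [er_sh, ← he]
    rfl
  beta_reduce at hcon
  simp only [hmem] at hcon
  have hCfin := cell_finite hc e (c e)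
  set C := cell c e (c e) with hC
  have hsum : ∑ g ∈ hCfin.toFinset, (φ (sh g y) - K * (if ∀ l ∈ L, l * g ∈ C then 0 else 1)) =
      ∑ᶠ g ∈ {g : Γ | g ∈ C}, (φ (sh g y) - K * (if ∀ l ∈ L, l * g ∈ C then 0 else 1)) := by
    have := finsum_mem_eq_finite_toFinset_sum
      (fun g => φ (sh g y) - K * (if ∀ l ∈ L, l * g ∈ C then (0 : ℝ) else 1)) hCfin
    rw [← this]
    rfl
  have hcon2 : Real.log (2 / η) ≤
      ∑ g ∈ hCfin.toFinset, (φ (sh g y) - K * (if ∀ l ∈ L, l * g ∈ C then 0 else 1)) := by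
    rw [hsum]
    exact hcon
  have hU : ((Unk F t e C).ncard : ℝ) =
      ∑ g ∈ hCfin.toFinset, if Known F t e C g then (0 : ℝ) else 1 := by
    have h3 : Unk F t e C = ↑(hCfin.toFinset.filter (fun g => ¬ Known F t e C g)) := by
      ext g
      simp [Unk]
    rw [h3, Set.ncard_coe_finset, ← Finset.sum_boole]
    refine Finset.sum_congr rfl fun g _ => ?_
    by_cases h : Known F t e C g <;> simp [h]
  have hV : ((avl a e C).ncard : ℝ) =
      ∑ g ∈ hCfin.toFinset, if a (sh g y) = true then (1 : ℝ) else 0 := by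
    have h3 : avl a e C = ↑(hCfin.toFinset.filter (fun g => a (sh g y) = true)) := by
      ext g
      simp [avl, he, hst.er_er]
    rw [h3, Set.ncard_coe_finset, ← Finset.sum_boole]
  have hlog : 0 ≤ Real.log (1 / α) := Real.log_nonneg (by
    rw [le_div_iff₀ hα0]; linarith)
  have key : Real.log (2 / η) ≤ Real.log (1 / α) * ((avl a e C).ncard : ℝ) -
      K * ((Unk F t e C).ncard : ℝ) := by
    refine hcon2.trans ?_
    rw [hU, hV, Finset.mul_sum, Finset.mul_sum, ← Finset.sum_sub_distrib]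
    refine Finset.sum_le_sum fun g _ => ?_
    have h3 : Real.log (1 / α) * Set.indicator {y | a y = true} (1 : (Γ → Bool) → ℝ) (sh g y) =
        Real.log (1 / α) * (if a (sh g y) = true then (1 : ℝ) else 0) := by
      rw [Set.indicator_apply]
      rfl
    have h4 : Set.indicator {y | bT a t S₀ y} (1 : (Γ → Bool) → ℝ) (sh g y) =
        (if bT a t S₀ (sh g y) then (1 : ℝ) else 0) := by
      rw [Set.indicator_apply]
      rfl
    have h5 : (if Known F t e C g then (0 : ℝ) else 1) ≤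
        (if bT a t S₀ (sh g y) then (1 : ℝ) else 0) +
          (if ∀ l ∈ L, l * g ∈ C then (0 : ℝ) else 1) := by
      by_cases h6 : bT a t S₀ (sh g y)
      · rw [if_pos h6]
        split_ifs <;> norm_num
      · by_cases h7 : ∀ l ∈ L, l * g ∈ C
        · have h8 := known_of hF hL y C g h6 h7
          rw [if_pos h8, if_neg h6, if_pos h7]
          norm_num
        · rw [if_neg h6, if_neg h7]
          split_ifs <;> norm_num
    have h6 := mul_le_mul_of_nonneg_left h5 hK0
    simp only [φ]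
    rw [h3, h4]
    linarith
  -- conclusion
  have hη2 : Real.log (2 / η) = - Real.log (η / 2) := by
    rw [← Real.log_inv, inv_div]
  have hαl : Real.log (1 / α) = - Real.log α := by
    rw [one_div, Real.log_inv]
  have hpos : 0 < (Fintype.card Sg : ℝ) ^ (2 * (Unk F t e C).ncard) * α ^ (avl a e C).ncard := by
    positivity
  have hfin : Real.log ((Fintype.card Sg : ℝ) ^ (2 * (Unk F t e C).ncard) *
      α ^ (avl a e C).ncard) ≤ Real.log (η / 2) := by
    rw [Real.log_mul (by positivity) (by positivity), Real.log_pow, Real.log_pow]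
    rw [hη2, hαl, hK] at key
    push_cast
    linarith
  have h9 := (Real.log_le_log_iff hpos (by positivity)).1 hfin
  unfold kap
  rw [mul_assoc]
  linarith

end Pool.Agent.W883.FI
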