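import Pool.Agent.W868.FI.Stms

/-! Subtask FI-STARS: existence of star sites. -/

set_option autoImplicit false

open MeasureTheory Set

namespace Pool.Agent.W883.FI

open Pool.Agent.W868.FI

section comb

variable {Γ : Type} [Group Γ]

/-- star sites -/
def Sn (D X : Finset Γ) (y : Γ → Bool) (g : Γ) : Prop :=
  (∀ d ∈ D, y (d * g) = true) ∧ ∀ x ∈ X, ∃ d ∈ D, d * x ≠ 1 ∧ y (d * x * g) = false

theorem Sn_sh (D X : Finset Γ) (y : Γ → Bool) (g h : Γ) :
    Sn D X (sh g y) h ↔ Sn D X y (h * g) := by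
  unfold Sn sh
  simp only [mul_assoc]

variable {D X : Finset Γ}

theorem excl {y : Γ → Bool} {a x : Γ} (ha : Sn D X y a) (hx : x ∈ X) : ¬ Sn D X y (x * a) := by
  intro h
  obtain ⟨d, hd, -, h1⟩ := ha.2 x hx
  have h2 := h.1 d hd
  rw [← mul_assoc, h1] at h2
  exact absurd h2 (by decide)

theorem fact1 (h1 : ∀ d ∈ D, d ∈ X) (h2 : ∀ d ∈ D, d⁻¹ ∈ X)
    (h3 : ∀ d ∈ D, ∀ e ∈ D, d * e⁻¹ ≠ 1 → d * e⁻¹ ∈ X) {y y' : Γ → Bool}
    (h : ∀ g, ¬ Sn D X y g → y g = y' g) (g : Γ) (hg : Sn D X y g) : Sn D X y' g := by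
  refine ⟨fun d hd => ?_, fun x hx => ?_⟩
  · rw [← h _ (excl hg (h1 d hd))]
    exact hg.1 d hd
  · by_contra hcon
    push Not at hcon
    have hcon' : ∀ d ∈ D, d * x ≠ 1 → y' (d * x * g) = true := by
      intro d hd hdx
      have := hcon d hd hdx
      simpa using this
    obtain ⟨d0, hd0, hne0, hy0⟩ := hg.2 x hx
    have hS : Sn D X y (d0 * x * g) := by
      by_contra hc
      have h4 := h _ hc
      rw [hy0, hcon' d0 hd0 hne0] at h4
      exact absurd h4 (by decide)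
    obtain ⟨d1, hd1, hne1, hy1⟩ := hS.2 _ (h2 d0 hd0)
    have e1 : d1 * d0⁻¹ * (d0 * x * g) = d1 * x * g := by group
    rw [e1] at hy1
    have h5 := excl hS (h3 d1 hd1 d0 hd0 hne1)
    rw [e1] at h5
    by_cases hdx : d1 * x = 1
    · rw [hdx, one_mul] at h5
      exact h5 hg
    · have h4 := h _ h5
      rw [hy1, hcon' d1 hd1 hdx] at h4
      exact absurd h4 (by decide)

theorem fact (h1 : ∀ d ∈ D, d ∈ X) (h2 : ∀ d ∈ D, d⁻¹ ∈ X)
    (h3 : ∀ d ∈ D, ∀ e ∈ D, d * e⁻¹ ≠ 1 → d * e⁻¹ ∈ X) {y y' : Γ → Bool}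
    (h : ∀ g, ¬ Sn D X y g → y g = y' g) (g : Γ) : Sn D X y' g ↔ Sn D X y g := by
  refine ⟨fact1 h1 h2 h3 (fun g' hg' => ?_) g, fact1 h1 h2 h3 h g⟩
  exact (h g' fun hc => hg' (fact1 h1 h2 h3 h g' hc)).symm

open Classical in
/-- the values at star sites erased -/
noncomputable def hat (D X : Finset Γ) (y : Γ → Bool) (g : Γ) : Bool :=
  if Sn D X y g then false else y g

theorem hat_sh (y : Γ → Bool) (g h : Γ) : hat D X (sh g y) h = hat D X y (h * g) := by
  unfold hat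
  by_cases hc : Sn D X y (h * g)
  · rw [if_pos hc, if_pos ((Sn_sh D X y g h).2 hc)]
  · rw [if_neg hc, if_neg (fun h' => hc ((Sn_sh D X y g h).1 h'))]
    rfl

theorem fact_hat (h1 : ∀ d ∈ D, d ∈ X) (h2 : ∀ d ∈ D, d⁻¹ ∈ X)
    (h3 : ∀ d ∈ D, ∀ e ∈ D, d * e⁻¹ ≠ 1 → d * e⁻¹ ∈ X) {y y' : Γ → Bool}
    (h : ∀ g, ¬ Sn D X y g → y g = y' g) (g : Γ) : hat D X y' g = hat D X y g := by
  have hf := fact h1 h2 h3 h g
  unfold hat
  by_cases hc : Sn D X y g
  · rw [if_pos hc, if_pos (hf.2 hc)]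
  · rw [if_neg hc, if_neg (fun h' => hc (hf.1 h')), h g hc]

open Classical in
/-- the relevant coordinates -/
noncomputable def Kn (D X : Finset Γ) (g : Γ) : Finset Γ :=
  insert g (D.image (fun d => d * g) ∪ (D ×ˢ X).image (fun p => p.1 * p.2 * g))

theorem Sn_dep {y y' : Γ → Bool} {g : Γ} (h : ∀ k ∈ Kn D X g, y k = y' k) :
    Sn D X y g ↔ Sn D X y' g := by
  classical
  have h1 : ∀ d ∈ D, y (d * g) = y' (d * g) := fun d hd => h _ (by
    unfold Kn
    exact Finset.mem_insert_of_mem (Finset.mem_union_left _ (Finset.mem_image_of_mem _ hd)))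
  have h2 : ∀ d ∈ D, ∀ x ∈ X, y (d * x * g) = y' (d * x * g) := fun d hd x hx => h _ (by
    unfold Kn
    exact Finset.mem_insert_of_mem (Finset.mem_union_right _
      (Finset.mem_image.2 ⟨(d, x), Finset.mem_product.2 ⟨hd, hx⟩, rfl⟩)))
  unfold Sn
  refine and_congr (forall₂_congr fun d hd => by rw [h1 d hd])
    (forall₂_congr fun x hx => exists_congr fun d => ?_)
  constructor
  · rintro ⟨hd, h3, h4⟩
    exact ⟨hd, h3, by rw [← h2 d hd x hx]; exact h4⟩
  · rintro ⟨hd, h3, h4⟩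
    exact ⟨hd, h3, by rw [h2 d hd x hx]; exact h4⟩

theorem hat_dep {y y' : Γ → Bool} {g : Γ} (h : ∀ k ∈ Kn D X g, y k = y' k) :
    hat D X y g = hat D X y' g := by
  classical
  have hf := Sn_dep h
  unfold hat
  by_cases hc : Sn D X y g
  · rw [if_pos hc, if_pos (hf.1 hc)]
  · rw [if_neg hc, if_neg (fun h' => hc (hf.2 h')),
      h g (by unfold Kn; exact Finset.mem_insert_self _ _)]

end comb

theorem pos_of {Γ : Type} [Countable Γ] (ν : Measure Bool) [IsProbabilityMeasure ν]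
    (h1 : 0 < ν {true}) (h2 : 0 < ν {false}) {a : (Γ → Bool) → Bool} (ha : Loc a)
    {z : Γ → Bool} (hz : a z = true) : 0 < iid Γ ν {y | a y = true} := by
  obtain ⟨K, hK⟩ := ha
  have hsub : Set.pi (K : Set Γ) (fun g => {z g}) ⊆ {y | a y = true} := by
    intro y hy
    have h3 : a y = a z := hK y z (fun k hk => by
      have := hy k hk
      simpa using this)
    change a y = true
    rw [h3, hz]
  refine lt_of_lt_of_le ?_ (measure_mono hsub)
  unfold iid
  rw [Measure.infinitePi_pi (fun _ : Γ => ν) (fun i _ => MeasurableSet.of_discrete)]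
  rw [pos_iff_ne_zero, Finset.prod_ne_zero_iff]
  intro i _
  rcases hzi : z i with _ | _
  · exact h2.ne'
  · exact h1.ne'

theorem choice {Γ : Type} [Group Γ] [Infinite Γ] : ∃ D : Finset Γ, (1 : Γ) ∉ D ∧ D.Nonempty ∧
    ∀ x : Γ, x ≠ 1 → ∃ d ∈ D, d * x ∉ D ∧ d * x ≠ 1 := by
  classical
  obtain ⟨k1, hk1⟩ := Infinite.exists_notMem_finset ({1} : Finset Γ)
  obtain ⟨k2, hk2⟩ := Infinite.exists_notMem_finset ({1, k1} : Finset Γ)
  obtain ⟨k3, hk3⟩ := Infinite.exists_notMem_finset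
    ((({1, k1, k2} : Finset Γ) ×ˢ ({1, k1, k2} : Finset Γ) ×ˢ ({1, k1, k2} : Finset Γ)).image
      (fun p => p.1 * p.2.1⁻¹ * p.2.2))
  have hk3' : ∀ a ∈ ({1, k1, k2} : Finset Γ), ∀ b ∈ ({1, k1, k2} : Finset Γ),
      ∀ c ∈ ({1, k1, k2} : Finset Γ), k3 ≠ a * b⁻¹ * c := by
    intro a ha b hb c hc h
    exact hk3 (Finset.mem_image.2 ⟨(a, b, c), Finset.mem_product.2
      ⟨ha, Finset.mem_product.2 ⟨hb, hc⟩⟩, h.symm⟩)
  have m0 : (1 : Γ) ∈ ({1, k1, k2} : Finset Γ) := by simp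
  have m1 : k1 ∈ ({1, k1, k2} : Finset Γ) := by simp
  have m2 : k2 ∈ ({1, k1, k2} : Finset Γ) := by simp
  have n1 : k1 ≠ 1 := by simpa using hk1
  have n2 : k2 ≠ 1 := fun h => hk2 (by simp [h])
  have n12 : k2 ≠ k1 := fun h => hk2 (by simp [h])
  have n3 : k3 ≠ 1 := by
    have := hk3' 1 m0 1 m0 1 m0
    simpa using this
  refine ⟨{k1, k2, k3}, ?_, ⟨k1, by simp⟩, ?_⟩
  · simp only [Finset.mem_insert, Finset.mem_singleton, not_or]
    exact ⟨n1.symm, n2.symm, n3.symm⟩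
  · intro x hx
    by_contra hcon
    push Not at hcon
    have hcon' : ∀ d ∈ ({k1, k2, k3} : Finset Γ), d * x ∈ ({1, k1, k2} : Finset Γ) ∨
        d * x = k3 := by
      intro d hd
      by_cases h : d * x ∈ ({k1, k2, k3} : Finset Γ)
      · simp only [Finset.mem_insert, Finset.mem_singleton] at h ⊢
        tauto
      · have := hcon d hd h
        left
        rw [this]
        exact m0
    have h3 : k3 * x ∈ ({1, k1, k2} : Finset Γ) := by
      rcases hcon' k3 (by simp) with h | h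
      · exact h
      · exact absurd (mul_eq_left.1 h) hx
    have key : ∀ k ∈ ({1, k1, k2} : Finset Γ), k * x ∉ ({1, k1, k2} : Finset Γ) := by
      intro k hk h
      apply hk3' _ h3 _ h _ hk
      group
    have h1 := (hcon' k1 (by simp)).resolve_left (key k1 m1)
    have h2 := (hcon' k2 (by simp)).resolve_left (key k2 m2)
    exact n12 (mul_right_cancel (h2.trans h1.symm))

theorem stars : S_STARS := by
  classical
  intro Γ _ _ _ ν _ hν1 hν2
  obtain ⟨D, h1D, ⟨k1, hk1⟩, hD⟩ := choice (Γ := Γ)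
  let X : Finset Γ := ((D ∪ D.image (fun d => d⁻¹)) ∪
    (D ×ˢ D).image (fun p => p.1 * p.2⁻¹)).erase 1
  have hne : ∀ d ∈ D, d ≠ 1 := fun d hd h => h1D (h ▸ hd)
  have h1 : ∀ d ∈ D, d ∈ X := fun d hd => Finset.mem_erase.2 ⟨hne d hd,
    Finset.mem_union_left _ (Finset.mem_union_left _ hd)⟩
  have h2 : ∀ d ∈ D, d⁻¹ ∈ X := fun d hd => Finset.mem_erase.2
    ⟨inv_ne_one.2 (hne d hd), Finset.mem_union_left _ (Finset.mem_union_right _
      (Finset.mem_image_of_mem _ hd))⟩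
  have h3 : ∀ d ∈ D, ∀ e ∈ D, d * e⁻¹ ≠ 1 → d * e⁻¹ ∈ X := fun d hd e he h =>
    Finset.mem_erase.2 ⟨h, Finset.mem_union_right _ (Finset.mem_image.2
      ⟨(d, e), Finset.mem_product.2 ⟨hd, he⟩, rfl⟩)⟩
  have hX1 : ∀ x ∈ X, x ≠ 1 := fun x hx => (Finset.mem_erase.1 hx).1
  obtain ⟨t, ht⟩ := Infinite.exists_notMem_finset
    (D ∪ D.image (fun d => k1⁻¹ * d) ∪ (D ×ˢ X).image (fun p => p.1 * p.2))
  simp only [Finset.mem_union, not_or] at ht
  obtain ⟨⟨ht1, ht2⟩, ht3⟩ := ht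
  have ht2' : k1 * t ∉ D := fun h => ht2 (Finset.mem_image.2 ⟨k1 * t, h, by group⟩)
  have ht3' : ∀ d ∈ D, ∀ x ∈ X, d * x ≠ t := fun d hd x hx h =>
    ht3 (Finset.mem_image.2 ⟨(d, x), Finset.mem_product.2 ⟨hd, hx⟩, h⟩)
  let a : (Γ → Bool) → Bool := fun y => decide (Sn D X y 1 ∧ hat D X y t = false)
  let b : (Γ → Bool) → Bool := fun y => decide (Sn D X y 1 ∧ hat D X y t = true)
  have hloc_a : Loc a := by
    refine ⟨Kn D X 1 ∪ Kn D X t, fun x y hxy => ?_⟩
    have e1 : ∀ k ∈ Kn D X 1, x k = y k := fun k hk => hxy k (by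
      rw [Finset.coe_union]; exact Or.inl hk)
    have e2 : ∀ k ∈ Kn D X t, x k = y k := fun k hk => hxy k (by
      rw [Finset.coe_union]; exact Or.inr hk)
    simp only [a]
    rw [hat_dep e2]
    simp only [Sn_dep e1]
  have hloc_b : Loc b := by
    refine ⟨Kn D X 1 ∪ Kn D X t, fun x y hxy => ?_⟩
    have e1 : ∀ k ∈ Kn D X 1, x k = y k := fun k hk => hxy k (by
      rw [Finset.coe_union]; exact Or.inl hk)
    have e2 : ∀ k ∈ Kn D X t, x k = y k := fun k hk => hxy k (by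
      rw [Finset.coe_union]; exact Or.inr hk)
    simp only [b]
    rw [hat_dep e2]
    simp only [Sn_dep e1]
  refine ⟨a, b, hloc_a, hloc_b, ?_, ?_, ?_, ?_⟩
  · intro y hy
    have h4 : Sn D X y 1 ∧ hat D X y t = false := of_decide_eq_true hy
    simp only [b, h4.2]
    simp
  · intro y y' h
    have h4 : ∀ g, ¬ Sn D X y g → y g = y' g := by
      intro g hg
      have h5 : ¬ Sn D X (sh g y) 1 := by rwa [Sn_sh, one_mul]
      apply h g
      · simp [a, h5]
      · simp [b, h5]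
    simp only [a, b, fact h1 h2 h3 h4, fact_hat h1 h2 h3 h4]
    exact ⟨trivial, trivial⟩
  · refine pos_of ν hν1 hν2 hloc_a (z := fun g => decide (g ∈ D)) ?_
    simp only [a]
    rw [decide_eq_true_eq]
    refine ⟨⟨fun d hd => ?_, fun x hx => ?_⟩, ?_⟩
    · rw [mul_one]
      exact decide_eq_true hd
    · obtain ⟨d, hd, h4, h5⟩ := hD x (hX1 x hx)
      refine ⟨d, hd, h5, ?_⟩
      rw [mul_one]
      exact decide_eq_false h4
    · unfold hat
      split_ifs
      · rfl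
      · exact decide_eq_false ht1
  · refine pos_of ν hν1 hν2 hloc_b (z := fun g => decide (g ∈ D ∨ g = t)) ?_
    simp only [b]
    rw [decide_eq_true_eq]
    refine ⟨⟨fun d hd => ?_, fun x hx => ?_⟩, ?_⟩
    · rw [mul_one]
      exact decide_eq_true (Or.inl hd)
    · obtain ⟨d, hd, h4, h5⟩ := hD x (hX1 x hx)
      refine ⟨d, hd, h5, ?_⟩
      rw [mul_one]
      exact decide_eq_false (by
        rintro (h | h)
        · exact h4 h
        · exact ht3' d hd x hx h)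
    · unfold hat
      rw [if_neg]
      · exact decide_eq_true (Or.inr rfl)
      · intro h
        have h4 := h.1 k1 hk1
        have h5 := of_decide_eq_true h4
        rcases h5 with h5 | h5
        · exact ht2' h5
        · exact hne k1 hk1 (mul_eq_right.1 h5)

end Pool.Agent.W883.FI
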